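import Pool.Agent.Run7.h726.HL.K4

/-!
# `k`-sets of random points of the plane

`n` independent random points of the plane with common law `μ`.

Definitions:

* `kSets P k` (`Pool/Agent/Run7/h726/HL/K1.lean`): the `k`-sets of the points `P i`, `i : Fin n`,
  as sets of indices: the sets `S` of `k` indices with
  `i ∈ S ↔ u * (P i).1 + v * (P i).2 < c` for some `(u, v) ≠ (0, 0)` and `c`,
* `a2 m k` (`K4.lean`): the maximum of `(kSets P k).ncard` over all `m` distinct points, that is
  `a_2(m, k)` of the problem,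
* `NoLine μ` (`G.lean`): the law `μ` gives mass zero to every line,
* `expKSets μ n k` (`K1.lean`): the expected number of `k`-sets of `n` independent random points
  with law `μ`.
-/

set_option autoImplicit false

open Finset MeasureTheory Filter
open scoped ENNReal

namespace Pool.Agent.Results.MP_77a832_co.RandomKSets

open Run7.h726.HL

/-- 1. For every `K`, all large `k` and all `n ≥ 2 k` there is a law charging no line for which
the expected number of `k`-sets of `n` independent random points is at least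
`n * k ^ (K / (log log k) ^ 3)`.
2. For `1 ≤ k ≤ m / 2` there is a law charging no line for which the expected number of
`(k ^ 2 + 1)`-sets of `m k + 2` random points is at least `(k / 80) * (a_2(m, k) - 2)`.
3. If the expected number of `k`-sets is at most `C n k ^ γ` for all laws charging no line and all
`1 ≤ k ≤ n / 2`, then `a_2(m, k) ≤ 160 * 2 ^ γ * C * m * k ^ (2 γ) + 2` for all
`1 ≤ k ≤ m / 2`.
4. For every law charging no line the random points are almost surely distinct and the expected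
number of `k`-sets is at most `a_2(n, k)`; the number of `k`-sets is a measurable function of the
points. -/
theorem result :
    (∀ K : ℝ, ∃ k₀ : ℕ, ∀ k n : ℕ, k₀ ≤ k → 2 * k ≤ n → ∃ μ : Measure (ℝ × ℝ),
      IsProbabilityMeasure μ ∧ NoLine μ ∧
      ENNReal.ofReal (n * (k : ℝ) ^ (K / (Real.log (Real.log k)) ^ 3)) ≤ expKSets μ n k) ∧
    (∀ m k : ℕ, 1 ≤ k → 2 * k ≤ m → ∃ μ : Measure (ℝ × ℝ), IsProbabilityMeasure μ ∧ NoLine μ ∧
      ENNReal.ofReal ((k : ℝ) / 80 * ((a2 m k : ℝ) - 2)) ≤
        expKSets μ (m * k + 2) (k ^ 2 + 1)) ∧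
    (∀ γ C : ℝ, 0 ≤ γ → 0 ≤ C →
      (∀ μ : Measure (ℝ × ℝ), IsProbabilityMeasure μ → NoLine μ → ∀ n k : ℕ, 1 ≤ k →
        2 * k ≤ n → expKSets μ n k ≤ ENNReal.ofReal (C * n * (k : ℝ) ^ γ)) →
      ∀ m k : ℕ, 1 ≤ k → 2 * k ≤ m →
        (a2 m k : ℝ) ≤ 160 * 2 ^ γ * C * m * (k : ℝ) ^ (2 * γ) + 2) ∧
    (∀ (μ : Measure (ℝ × ℝ)) [IsProbabilityMeasure μ], NoLine μ → ∀ n k : ℕ,
      (∀ᵐ P ∂Measure.pi (fun _ : Fin n => μ), Function.Injective P) ∧
      expKSets μ n k ≤ (a2 n k : ℝ≥0∞)) ∧
    (∀ n k : ℕ, Measurable (fun P : Fin n → ℝ × ℝ => ((kSets P k).ncard : ℝ≥0∞))) := by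
  refine ⟨lowerK, ?_, ?_, fun μ _ hμ n k => ⟨ae_inj hμ n, exp_le_a2 hμ n k⟩, measurable_kSets⟩
  · intro m k hk1 hk
    obtain ⟨P, _, hP⟩ := exists_a2 m k
    rw [← hP]
    exact scaleK P hk1 hk
  · intro γ C hγ hC h m k hk1 hk
    obtain ⟨P, _, hP⟩ := exists_a2 m k
    rw [← hP]
    exact transferK hγ hC h P hk1 hk

end Pool.Agent.Results.MP_77a832_co.RandomKSets
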